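import Mathlib
import Pool.Agent.H.MP_9cb16a_an.B

namespace Pool.Agent.Results.MP_9cb16a_an.NotOpen

open Pool.Agent.H.MP_9cb16a_an Filter Topology WeakDual Pointwise

lemma zero_dim (A : Type) [NormedCommRing A] [NormedAlgebra ℂ A] [CompleteSpace A]
    (hd : Dense (Submodule.span ℂ {e : A | IsIdempotentElem e} : Set A)) :
    TopologicalSpace.IsTopologicalBasis {s : Set (characterSpace ℂ A) | IsClopen s} := by
  have : TotallySeparatedSpace (characterSpace ℂ A) := by
    rw [totallySeparatedSpace_iff_exists_isClopen]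
    intro x y hxy
    have hex : ∃ e : A, IsIdempotentElem e ∧ x e ≠ y e := by
      by_contra hc
      push Not at hc
      apply hxy
      apply CharacterSpace.ext
      intro z
      have h1 : Set.EqOn (CharacterSpace.toCLM x) (CharacterSpace.toCLM y)
          (Submodule.span ℂ {e : A | IsIdempotentElem e} : Set A) := by
        intro u hu
        exact LinearMap.eqOn_span (f := (CharacterSpace.toCLM x).toLinearMap)
          (g := (CharacterSpace.toCLM y).toLinearMap) (fun e he => hc e he) hu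
      exact congrFun (Continuous.ext_on hd (CharacterSpace.toCLM x).continuous
        (CharacterSpace.toCLM y).continuous h1) z
    obtain ⟨e, he, hne⟩ := hex
    have cont : Continuous fun χ : characterSpace ℂ A => χ e :=
      (gelfandTransform ℂ A e).continuous
    have val01 : ∀ χ : characterSpace ℂ A, χ e = 0 ∨ χ e = 1 := by
      intro χ
      have : IsIdempotentElem (χ e) := by
        unfold IsIdempotentElem
        rw [← map_mul, he.eq]
      exact IsIdempotentElem.iff_eq_zero_or_one.1 this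
    refine ⟨{χ | χ e = x e}, ⟨isClosed_eq cont continuous_const, ?_⟩, rfl, fun h => hne h.symm⟩
    have : {χ : characterSpace ℂ A | χ e = x e} = {χ | χ e = y e}ᶜ := by
      ext χ
      simp only [Set.mem_ofPred_eq, Set.mem_compl_iff]
      rcases val01 χ with h | h <;> rcases val01 x with h1 | h1 <;> rcases val01 y with h2 | h2 <;>
        simp_all
    rw [this]
    exact (isClosed_eq cont continuous_const).isOpen_compl
  exact isTopologicalBasis_isClopen

abbrev A : Type := WithLp 1 (Unitization ℂ B)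

noncomputable instance : NormedCommRing A where
  __ := WithLp.instUnitizationNormedRing
  mul_comm x y := congrArg (WithLp.toLp 1) (mul_comm x.ofLp y.ofLp)

noncomputable def j (v : B) : A := WithLp.toLp 1 (v : Unitization ℂ B)

lemma j_mul (v w : B) : j (v * w) = j v * j w :=
  congrArg (WithLp.toLp 1) (Unitization.inr_mul ℂ v w)

lemma j_add (v w : B) : j (v + w) = j v + j w :=
  congrArg (WithLp.toLp 1) (Unitization.inr_add ℂ v w)

lemma j_smul (c : ℂ) (v : B) : j (c • v) = c • j v :=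
  congrArg (WithLp.toLp 1) (Unitization.inr_smul ℂ c v)

lemma j_norm (v : B) : ‖j v‖ = ‖v‖ := WithLp.unitization_norm_inr v

lemma dense_A : Dense (Submodule.span ℂ {e : A | IsIdempotentElem e} : Set A) := by
  intro x
  have e : x = x.ofLp.fst • (1 : A) + j x.ofLp.snd := by
    apply WithLp.ofLp_injective 1
    change x.ofLp = x.ofLp.fst • (1 : Unitization ℂ B) + (x.ofLp.snd : Unitization ℂ B)
    ext <;> simp
  rw [e]
  refine (Submodule.span ℂ {e : A | IsIdempotentElem e}).topologicalClosure.add_mem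
    (Submodule.smul_mem _ _ (Submodule.le_topologicalClosure _
      (Submodule.subset_span IsIdempotentElem.one))) ?_
  have hc : Continuous j := WithLp.unitization_isometry_inr.continuous
  refine map_mem_closure hc (dense_B x.ofLp.snd) fun v hv => ?_
  induction hv using Submodule.span_induction with
  | mem u hu =>
    refine Submodule.subset_span ?_
    change j u * j u = j u
    rw [← j_mul, hu.eq]
  | zero =>
    have : j 0 = 0 := by simpa using j_smul 0 0
    rw [this]; exact zero_mem _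
  | add u w _ _ hu hw => rw [j_add]; exact add_mem hu hw
  | smul c u _ hu => rw [j_smul]; exact Submodule.smul_mem _ _ hu

noncomputable def ch (n : ℕ) (p : T →ₐ[ℂ] ℂ) : B →ₙₐ[ℂ] ℂ where
  toFun v := hh n * p (V v n)
  map_smul' c v := by simp [V_smul]; ring
  map_zero' := by simp [V_zero]
  map_add' v w := by simp [V_add]; ring
  map_mul' v w := by simp only [V_mul, map_smul, map_mul, smul_eq_mul]; ring

lemma semi (x : A) (h : ∀ χ : characterSpace ℂ A, χ x = 0) : x = 0 := by
  have h' : ∀ f : Unitization ℂ B →ₐ[ℂ] ℂ, f x.ofLp = 0 := fun f =>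
    h (CharacterSpace.equivAlgHom.symm
      (f.comp (WithLp.unitizationAlgEquiv (𝕜 := ℂ) (A := B) ℂ).toAlgHom))
  have h1 : x.ofLp.fst = 0 := h' (Unitization.fstHom ℂ B)
  have h2 : ∀ n (p : T →ₐ[ℂ] ℂ), p (V x.ofLp.snd n) = 0 := by
    intro n p
    have := h' (Unitization.lift (ch n p))
    have h0 : (hh n : ℂ) ≠ 0 := by exact_mod_cast (hh_pos n).ne'
    simpa [Unitization.lift, NonUnitalAlgHom.toAlgHom, h1, ch, h0] using this
  have h3 : x.ofLp.snd = 0 := by
    apply V_inj
    rw [V_zero]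
    funext n
    exact Prod.ext (h2 n (AlgHom.fst ℂ ℂ (ℂ × ℂ)))
      (Prod.ext (h2 n ((AlgHom.fst ℂ ℂ ℂ).comp (AlgHom.snd ℂ ℂ (ℂ × ℂ))))
        (h2 n ((AlgHom.snd ℂ ℂ ℂ).comp (AlgHom.snd ℂ ℂ (ℂ × ℂ)))))
  apply WithLp.ofLp_injective 1
  exact Unitization.ext h1 h3

lemma bad (δ : ℝ) (hδ : 0 < δ) :
    ¬ Metric.ball (j a * j a) δ ⊆ Metric.ball (j a) (1 / 10 ^ 4) * Metric.ball (j a) (1 / 10 ^ 4) := by
  intro hsub
  obtain ⟨m, hm⟩ := exists_pow_lt_of_lt_one (show 0 < δ / 8 by positivity)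
    (show (1 / 2 : ℝ) < 1 by norm_num)
  have hmem : j (a * a + P m (((1 / 16 ^ m : ℝ) : ℂ), 0, 0)) ∈ Metric.ball (j a * j a) δ := by
    rw [mem_ball_iff_norm, j_add, j_mul, add_sub_cancel_left, j_norm]
    refine (P_le _ _).trans_lt ?_
    have h1 : ‖((((1 / 16 ^ m : ℝ) : ℂ), 0, 0) : T)‖ ≤ 1 / 16 ^ m := by
      refine nT _ _ ?_ (by simp) (by simp)
      rw [Complex.norm_real, Real.norm_of_nonneg (by positivity)]
    have h2 : (1 / 16 ^ m : ℝ) * 8 ^ m = (1 / 2) ^ m := by
      rw [← one_div_pow, ← mul_pow]; norm_num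
    have h3 := mul_le_mul_of_nonneg_right h1 (by positivity : (0 : ℝ) ≤ 8 ^ m)
    linarith
  obtain ⟨x, hx, y, hy, hxy⟩ := hsub hmem
  have nr : ∀ z : A, z ∈ Metric.ball (j a) (1 / 10 ^ 4) → ‖z.ofLp.snd - a‖ ≤ 1 / 10 ^ 4 := by
    intro z hz
    rw [mem_ball_iff_norm, WithLp.unitization_norm_def] at hz
    have e : (z - j a).ofLp.snd = z.ofLp.snd - a := by
      change (z.ofLp - (a : Unitization ℂ B)).snd = _
      simp [sub_eq_add_neg]
    rw [e] at hz
    linarith [norm_nonneg (z - j a).ofLp.fst]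
  have hu : x.ofLp * y.ofLp
      = ((a * a + P m (((1 / 16 ^ m : ℝ) : ℂ), 0, 0) : B) : Unitization ℂ B) :=
    congrArg WithLp.ofLp hxy
  have h1 := congrArg (fun u : Unitization ℂ B => u.fst) hu
  have h2 := congrArg (fun u : Unitization ℂ B => u.snd) hu
  simp only [Unitization.fst_mul, Unitization.fst_inr] at h1
  simp only [Unitization.snd_mul, Unitization.snd_inr] at h2
  rcases mul_eq_zero.1 h1 with h | h
  · rw [h, zero_smul, zero_add, mul_comm] at h2
    exact key m _ _ _ (nr y hy) (nr x hx) h2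
  · rw [h, zero_smul, add_zero] at h2
    exact key m _ _ _ (nr x hx) (nr y hy) h2

theorem result : ∃ (A : Type) (_ : NormedCommRing A) (_ : NormedAlgebra ℂ A) (_ : CompleteSpace A),
    ‖(1 : A)‖ = 1 ∧
    TopologicalSpace.IsTopologicalBasis {s : Set (WeakDual.characterSpace ℂ A) | IsClopen s} ∧
    Dense (Submodule.span ℂ {e : A | IsIdempotentElem e} : Set A) ∧
    (∀ x : A, (∀ χ : WeakDual.characterSpace ℂ A, χ x = 0) → x = 0) ∧
    ¬ IsOpenMap (fun p : A × A => p.1 * p.2) ∧
    ¬ (∀ ε : ℝ, 0 < ε → ∃ δ : ℝ, 0 < δ ∧ ∀ x y : A, ‖x‖ ≤ 1 → ‖y‖ ≤ 1 →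
      Metric.ball (x * y) δ ⊆ Set.image2 (· * ·) (Metric.ball x ε) (Metric.ball y ε)) := by
  refine ⟨A, inferInstance, WithLp.instUnitizationNormedAlgebra, inferInstance, ?_,
    zero_dim A dense_A, dense_A, semi, fun h => ?_, fun h => ?_⟩
  · rw [WithLp.unitization_norm_def]
    change ‖(1 : Unitization ℂ B).fst‖ + ‖(1 : Unitization ℂ B).snd‖ = 1
    simp
  · have ho := h (Metric.ball (j a) (1 / 10 ^ 4) ×ˢ Metric.ball (j a) (1 / 10 ^ 4))
      (Metric.isOpen_ball.prod Metric.isOpen_ball)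
    obtain ⟨δ, hδ, hs⟩ := Metric.isOpen_iff.1 ho (j a * j a)
      ⟨(j a, j a), ⟨Metric.mem_ball_self (by norm_num), Metric.mem_ball_self (by norm_num)⟩, rfl⟩
    refine bad δ hδ fun z hz => ?_
    obtain ⟨p, ⟨h1, h2⟩, rfl⟩ := hs hz
    exact ⟨p.1, h1, p.2, h2, rfl⟩
  · obtain ⟨δ, hδ, hs⟩ := h (1 / 10 ^ 4) (by norm_num)
    have : ‖j a‖ ≤ 1 := by rw [j_norm]; linarith [a_le]
    exact bad δ hδ (hs _ _ this this)

end Pool.Agent.Results.MP_9cb16a_an.NotOpen
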